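import Pool.Agent.helper5.SYM.SpecB

/-!
# Row sy:TR4: a group of order four in a locally transitive vertex stabiliser
-/

set_option autoImplicit false

namespace Pool.Agent.SYM
open Finset CT Polynomial

/-- the stabiliser of a vertex -/
def TR4_S {V : Type} (G : SimpleGraph V) (v : V) : Subgroup (G ≃g G) where
  carrier := {σ | σ v = v}
  mul_mem' := by
    intro σ τ (hσ : σ v = v) (hτ : τ v = v)
    show (σ * τ) v = v
    rw [RelIso.mul_apply, hτ, hσ]
  one_mem' := rfl
  inv_mem' := by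
    intro σ (hσ : σ v = v)
    show σ.symm v = v
    rw [← hσ]
    rw [RelIso.symm_apply_apply, hσ]

theorem TR4_adj {V : Type} {G : SimpleGraph V} {v : V} (σ : TR4_S G v) {w : V}
    (h : G.Adj v w) : G.Adj v (σ.1 w) := by
  have h1 : G.Adj (σ.1 v) (σ.1 w) := σ.1.map_rel_iff.2 h
  have h2 : σ.1 v = v := σ.2
  rwa [h2] at h1

/-- the action of the stabiliser on the neighbours -/
instance TR4_act {V : Type} (G : SimpleGraph V) (v : V) :
    MulAction (TR4_S G v) {w // G.Adj v w} where
  smul σ w := ⟨σ.1 w.1, TR4_adj σ w.2⟩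
  one_smul w := rfl
  mul_smul σ τ w := rfl

theorem TR4 (hFRE : FRE_stmt) : TR4_stmt := by
  classical
  intro V _ _ G v h4 htr hinv
  haveI : Finite (G ≃g G) :=
    Finite.of_injective (fun σ : G ≃g G => (σ : V → V)) DFunLike.coe_injective
  haveI : Fact (Nat.Prime 2) := ⟨Nat.prime_two⟩
  have hX : Nat.card {w // G.Adj v w} = 4 := h4 v
  have hne : Nonempty {w // G.Adj v w} := by
    by_contra h
    rw [not_nonempty_iff] at h
    rw [Nat.card_of_isEmpty] at hX
    omega
  obtain ⟨w0⟩ := hne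
  -- the index of the stabiliser of a neighbour
  have hdvd : 2 ^ 2 ∣ Nat.card (TR4_S G v) := by
    have h1 := MulAction.index_stabilizer (TR4_S G v) w0
    have h2 : MulAction.orbit (TR4_S G v) w0 = Set.univ := by
      rw [Set.eq_univ_iff_forall]
      intro w
      obtain ⟨σ, hσ1, hσ2⟩ := htr w0.1 w.1 w0.2 w.2
      exact ⟨⟨σ, hσ1⟩, Subtype.ext hσ2⟩
    rw [h2, Set.ncard_univ, hX] at h1
    have h3 := (MulAction.stabilizer (TR4_S G v) w0).index_dvd_card
    rw [h1] at h3
    exact h3
  obtain ⟨P⟩ : Nonempty (Sylow 2 (TR4_S G v)) := inferInstance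
  have hP4 : 2 ^ 2 ∣ Nat.card P := P.pow_dvd_card_of_pow_dvd_card hdvd
  set P' : Subgroup (G ≃g G) := (P : Subgroup (TR4_S G v)).map (TR4_S G v).subtype with hP'
  have hPp : IsPGroup 2 P' := P.isPGroup'.map _
  have hfree : ∀ p : P, ∀ d : G.Dart, sd (p : TR4_S G v).1 d = d → p = 1 := by
    intro p d hd
    have h1 : ((p : TR4_S G v) : G ≃g G) ∈ P' := ⟨p.1, p.2, rfl⟩
    have h2 := hFRE V G P' hPp hinv _ h1 d hd
    exact Subtype.ext (Subtype.ext h2)
  have hcard : Nat.card P = 2 ^ 2 := by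
    have h1 : Nat.card P ≤ Nat.card {w // G.Adj v w} := by
      refine Nat.card_le_card_of_injective (fun p : P => (p : TR4_S G v) • w0) ?_
      intro p q hpq
      have h2 : (p : TR4_S G v).1 w0.1 = (q : TR4_S G v).1 w0.1 := congrArg Subtype.val hpq
      have h3 : q⁻¹ * p = 1 := by
        apply hfree (q⁻¹ * p) ⟨(v, w0.1), w0.2⟩
        have e1 : ((q⁻¹ * p : P) : TR4_S G v).1 v = v := ((q⁻¹ * p : P) : TR4_S G v).2
        have e2 : ((q⁻¹ * p : P) : TR4_S G v).1 w0.1 = w0.1 := by
          show (q : TR4_S G v).1.symm ((p : TR4_S G v).1 w0.1) = w0.1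
          rw [h2, RelIso.symm_apply_apply]
        apply SimpleGraph.Dart.ext
        exact Prod.ext e1 e2
      exact (inv_mul_eq_one.1 h3).symm
    rw [hX] at h1
    have h2 : 0 < Nat.card P := Nat.card_pos
    have h3 := Nat.le_of_dvd h2 hP4
    omega
  have hcomm : ∀ a b : P, a * b = b * a := IsPGroup.commutative_of_card_eq_prime_sq hcard
  letI cg : CommGroup P := { (inferInstance : Group P) with mul_comm := hcomm }
  refine ⟨Additive P, inferInstance, Fintype.ofFinite _,
    fun a => ((a.toMul : P) : TR4_S G v).1, ?_, ?_, ?_, ?_, ?_⟩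
  · have h1 : Nat.card (Additive P) = Nat.card P := rfl
    rw [h1, hcard]
    norm_num
  · intro a b x
    rfl
  · intro x
    rfl
  · intro d a ha
    have h1 := hfree a.toMul d ha
    exact h1
  · intro a
    exact ((a.toMul : P) : TR4_S G v).2

end Pool.Agent.SYM
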